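import Pool.Agent.Results.MP_4926dc_gt.NoParallelNull

set_option autoImplicit false

open scoped ContDiff Manifold

noncomputable section

namespace Y912.LP

open Pool.Agent.Results.MP_4926dc_gt.NoParallelNull

theorem six_zero {a b c d e f : ℝ} (h : a ^ 2 + b ^ 2 + c ^ 2 + (d ^ 2 + e ^ 2 + f ^ 2) ≤ 0) :
    a = 0 ∧ b = 0 ∧ c = 0 ∧ d = 0 ∧ e = 0 ∧ f = 0 := by
  have ha := sq_nonneg a
  have hb := sq_nonneg b
  have hc := sq_nonneg c
  have hd := sq_nonneg d
  have he := sq_nonneg e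
  have hf := sq_nonneg f
  refine ⟨?_, ?_, ?_, ?_, ?_, ?_⟩ <;> apply pow_eq_zero_iff (two_ne_zero) |>.1 <;> linarith

section Frame

variable {E H N : Type} [NormedAddCommGroup E] [NormedSpace ℝ E] [CompleteSpace E]
    [TopologicalSpace H]
    {I : ModelWithCorners ℝ E H} [TopologicalSpace N] [ChartedSpace H N] [IsManifold I ∞ N]
    {g : PseudoMetric I N}

/-- A smooth field whose covariant derivatives are everywhere multiples of itself vanishes. -/
theorem no_line (D : FrameData g)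
    {cov : CovariantDerivative I E (fun x : N => TangentSpace I x)}
    (hcov : IsLeviCivita g cov) {V : ∀ x : N, TangentSpace I x}
    (hV : ∀ x, SmoothFieldAt I V x)
    (hpar : ∀ (y : N) (v : TangentSpace I y), ∃ c : ℝ, cov V y v = c • V y) (x : N) : V x = 0 := by
  choose θ hθ using fun (a : KK) (y : N) => hpar y (D.Ef a y)
  let u : KK → N → ℝ := fun b y => g.val y (V y) (D.Ef b y)
  have hu : ∀ b, ContMDiff I 𝓘(ℝ, ℝ) ∞ (u b) := fun b y => g.smooth V (D.Ef b) y (hV y) (D.smooth b y)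
  have du : ∀ a b y, mvfderiv I (u b) y (D.Ef a y) = θ a y * u b y + u (cn a b) y := by
    intro a b y
    have h := hcov.metric_parallel V (D.Ef b) y (hV y).diff (D.smooth b y).diff (D.Ef a y)
    rw [hθ, cov_frame D hcov] at h
    simpa using h
  have hadd : ∀ a b y, u (a + b) y = u a y + u b y := by
    intro a b y; simp [u, D.add]
  have hsmul : ∀ (r : ℝ) a y, u (r • a) y = r * u a y := by
    intro r a y; simp [u, D.smul]
  have hsub : ∀ a b y, u (a - b) y = u a y - u b y := by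
    intro a b y
    have : a - b = a + (-1 : ℝ) • b := by simp [sub_eq_add_neg]
    rw [this, hadd, hsmul]; ring
  have hne : D.Ef (ee 0) x ≠ 0 := by
    intro h
    have := D.metric (ee 0) (0, Pi.single 0 1) x
    rw [h] at this
    simp [Bf, dt, ee] at this
  by_contra hx
  obtain ⟨b₀, hb₀⟩ : ∃ b₀, u b₀ x ≠ 0 := by
    by_contra hcon
    push Not at hcon
    apply hx
    refine g.nondegenerate x (V x) ?_
    intro w
    obtain ⟨c, rfl⟩ := D.surj x w
    exact hcon c
  have hud : ∀ b y, MDifferentiableAt I 𝓘(ℝ, ℝ) (u b) y := fun b y =>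
    (hu b).mdifferentiable (by simp) y
  have hed : ∀ b c y, MDifferentiableAt I 𝓘(ℝ, ℝ) (fun y => mvfderiv I (u c) y (D.Ef b y)) y :=
    fun b c y => diff_apply (hu c) (D.smooth b y).diff
  let p : KK → N → ℝ := fun b y => mvfderiv I (u b₀) y (D.Ef b y) - u (cn b b₀) y
  have hp : ∀ b y, p b y = θ b y * u b₀ y := by
    intro b y
    simp only [p]
    rw [du]; ring
  have hpd : ∀ b y, MDifferentiableAt I 𝓘(ℝ, ℝ) (p b) y := fun b y => (hed b b₀ y).sub (hud _ y)
  have hglob : ∀ b c, (fun y => u b₀ y * mvfderiv I (u c) y (D.Ef b y)) =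
      fun y => u b₀ y * u (cn b c) y + p b y * u c y := by
    intro b c
    funext y
    rw [du, hp]; ring
  -- the second derivatives
  have hsec : ∀ a b c, u b₀ x * mvfderiv I (fun y => mvfderiv I (u c) y (D.Ef b y)) x (D.Ef a x) +
      (θ b x * u c x + u (cn b c) x) * (θ a x * u b₀ x + u (cn a b₀) x) =
      u b₀ x * (θ a x * u (cn b c) x + u (cn a (cn b c)) x) +
        u (cn b c) x * (θ a x * u b₀ x + u (cn a b₀) x) +
        (θ b x * u b₀ x * (θ a x * u c x + u (cn a c) x) +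
          u c x * mvfderiv I (p b) x (D.Ef a x)) := by
    intro a b c
    have h1 := congrArg (fun F : N → ℝ => mvfderiv I F x (D.Ef a x)) (hglob b c)
    have hA : MDifferentiableAt I 𝓘(ℝ, ℝ) (fun y => u b₀ y * u (cn b c) y) x :=
      (hud b₀ x).mul (hud _ x)
    have hB : MDifferentiableAt I 𝓘(ℝ, ℝ) (fun y => p b y * u c y) x := (hpd b x).mul (hud c x)
    rw [mvfderiv_fun_mul (hud b₀ x) (hed b c x), mvfderiv_fun_add hA hB,
      mvfderiv_fun_mul (hud b₀ x) (hud (cn b c) x), mvfderiv_fun_mul (hpd b x) (hud c x)] at h1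
    simp only [add_apply, smul_apply, smul_eq_mul] at h1
    rw [du, du, du, du, hp] at h1
    linarith
  have hR : ∀ a b, ∃ Λ : ℝ, ∀ c, u b₀ x * u (Rc a b c) x = Λ * u c x := by
    intro a b
    refine ⟨u b₀ x * θ (br a b) x - (mvfderiv I (p b) x (D.Ef a x) - mvfderiv I (p a) x (D.Ef b x)
      - θ b x * u (cn a b₀) x + θ a x * u (cn b b₀) x), fun c => ?_⟩
    have h := apply_mlieBracket (hu c) (D.smooth a) (D.smooth b) (D.smooth (ee 0)) x hne
    rw [D.bracket, du] at h
    have h1 := hsec a b c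
    have h2 := hsec b a c
    rw [Rc, hsub, hsub]
    linear_combination (-(u b₀ x)) * h - h1 + h2
  set P : Fin 3 → ℝ := fun i => u (ee i) x with hP
  set Q : Fin 3 → ℝ := fun i => u ((0, Pi.single i 1) : KK) x with hQ
  have hlin : ∀ c : KK, u c x = P 0 * c.1 0 + P 1 * c.1 1 + P 2 * c.1 2 +
      (Q 0 * c.2 0 + Q 1 * c.2 1 + Q 2 * c.2 2) := by
    intro c
    have e : c = (c.1 0 • ee 0 + c.1 1 • ee 1 + c.1 2 • ee 2) +
        (c.2 0 • ((0, Pi.single 0 1) : KK) + c.2 1 • ((0, Pi.single 1 1) : KK) +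
          c.2 2 • ((0, Pi.single 2 1) : KK)) := by
      ext i <;> fin_cases i <;> simp [ee]
    conv_lhs => rw [e]
    simp only [hadd, hsmul]
    simp only [hP, hQ]
    ring
  have hpos : 0 < P 0 ^ 2 + P 1 ^ 2 + P 2 ^ 2 + (Q 0 ^ 2 + Q 1 ^ 2 + Q 2 ^ 2) := by
    by_contra hcon
    push Not at hcon
    obtain ⟨p0, p1, p2, q0, q1, q2⟩ := six_zero hcon
    apply hb₀
    rw [hlin, p0, p1, p2, q0, q1, q2]
    ring
  have hc0 : ∀ i j : Fin 3, u (Rc (ee i) (ee j) (![P 0, P 1, P 2], ![Q 0, Q 1, Q 2])) x = 0 := by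
    intro i j
    rw [hlin]
    fin_cases i <;> fin_cases j <;> simp [Rc, cn, br, cr, ee] <;> ring
  have hRz : ∀ (i j : Fin 3) c, u (Rc (ee i) (ee j) c) x = 0 := by
    intro i j c
    obtain ⟨Λ, hΛ⟩ := hR (ee i) (ee j)
    have h1 := hΛ (![P 0, P 1, P 2], ![Q 0, Q 1, Q 2])
    rw [hc0, mul_zero, hlin] at h1
    simp only [Matrix.cons_val_zero, Matrix.cons_val_one, Matrix.cons_val] at h1
    have hΛ0 : Λ = 0 := by
      have h2 : Λ * (P 0 ^ 2 + P 1 ^ 2 + P 2 ^ 2 + (Q 0 ^ 2 + Q 1 ^ 2 + Q 2 ^ 2)) = 0 := by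
        linarith
      exact (mul_eq_zero.1 h2).resolve_right hpos.ne'
    have h3 := hΛ c
    rw [hΛ0, zero_mul] at h3
    exact (mul_eq_zero.1 h3).resolve_left hb₀
  apply hb₀
  rw [span b₀, hsmul, hadd, hadd, hRz, hRz, hRz]; ring

end Frame

/-- the parallelization lifts along local diffeomorphisms -/
theorem lift_par {N : Type} [TopologicalSpace N]
    [ChartedSpace (ModelProd (EuclideanSpace ℝ (Fin 3)) (ModelProd (EuclideanSpace ℝ (Fin 1))
      (ModelProd (EuclideanSpace ℝ (Fin 1)) (EuclideanSpace ℝ (Fin 1))))) N] [IsManifold I6 ∞ N]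
    {h : PseudoMetric I6 N} {q : N → G6} (hloc : IsLocalDiffeomorph I6 I6 ∞ q)
    (hpull : ∀ (y : N) (v w : TangentSpace I6 y),
      h.val y v w = PG.metric.val (q y) (mfderiv I6 I6 q y v) (mfderiv I6 I6 q y w)) :
    ∃ P : Par I6 N, h = P.metric := by
  have := isManifold_min2 (I := I6) (M := G6)
  have := isManifold_min2 (I := I6) (M := N)
  have hinv : ∀ y, (mfderiv I6 I6 q y).IsInvertible := fun y =>
    ⟨hloc.mfderivToContinuousLinearEquiv (by simp) y,
      hloc.mfderivToContinuousLinearEquiv_coe (by simp) y⟩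
  have hsm : ContMDiff I6 I6 ∞ q := hloc.contMDiff
  let F : KK → ∀ y : N, TangentSpace I6 y := fun a => VectorField.mpullback I6 I6 q (Ea a)
  have hF : ∀ a y, mfderiv I6 I6 q y (F a y) = Ea a (q y) := by
    intro a y
    simp only [F, VectorField.mpullback_apply]
    exact (hinv y).self_apply_inverse _
  have hinj : ∀ (y : N) (v w : TangentSpace I6 y),
      mfderiv I6 I6 q y v = mfderiv I6 I6 q y w → v = w := by
    intro y v w hvw
    exact (hinv y).injective hvw
  have hf : ContMDiff I6 𝓘(ℝ, WW) ∞ (F6 ∘ q) := smooth_F6.comp hsm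
  have hom : ∀ (y : N) (v : TangentSpace I6 y), oo (q y) (mfderiv I6 I6 q y v) =
      pr (star ((F6 ∘ q) y) * mvfderiv I6 (F6 ∘ q) y v) := by
    intro y v
    have h1 : MDifferentiableAt I6 𝓘(ℝ, WW) F6 (q y) := smooth_F6.mdifferentiable (by simp) _
    have h2 : MDifferentiableAt I6 I6 q y := hsm.mdifferentiable (by simp) _
    have h3 := mfderiv_comp_apply y h1 h2 v
    have h4 : mvfderiv I6 (F6 ∘ q) y v = mvfderiv I6 F6 (q y) (mfderiv I6 I6 q y v) := h3
    rw [h4]
    rfl
  refine ⟨⟨F, fun y => (oo (q y)).comp (mfderiv I6 I6 q y), ?_, ?_, ?_, ?_, ?_, ?_⟩, ?_⟩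
  · intro a y
    rw [ContinuousLinearMap.comp_apply, hF, oo_Ea]
  · intro y v
    apply hinj
    rw [hF]
    exact oo_inj _ (oo_Ea _ _)
  · intro a y
    exact ContMDiffAt.mpullback_vectorField_preimage (smooth_Ea a (q y)) (hsm y) (hinv y) (by simp)
  · intro X y hX
    have e : (fun z => ((oo (q z)).comp (mfderiv I6 I6 q z)) (X z)) =
        fun z => pr (star ((F6 ∘ q) z) * mvfderiv I6 (F6 ∘ q) z (X z)) := by
      funext z
      exact hom z (X z)
    rw [e]
    exact smooth_form hf hX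
  · intro X y hX
    have e : (fun z => ((oo (q z)).comp (mfderiv I6 I6 q z)) (X z)) =
        fun z => pr (star ((F6 ∘ q) z) * mvfderiv I6 (F6 ∘ q) z (X z)) := by
      funext z
      exact hom z (X z)
    rw [e]
    exact diff_form hf hX
  · intro a b y
    rw [← VectorField.mpullback_mlieBracket (n := ∞) (smooth_Ea a (q y)).diff
      (smooth_Ea b (q y)).diff (hsm y)
      (by rw [minSmoothness_of_isRCLikeNormedField]; exact WithTop.coe_le_coe.mpr le_top)]
    apply hinj
    rw [hF, VectorField.mpullback_apply, (hinv y).self_apply_inverse, bracket_Ea]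
  · apply PseudoMetric.eq_of_val
    intro y v w
    rw [hpull]
    rfl

end Y912.LP
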